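import Pool.Agent.U469.EW.Stm

/-!
# Project EW, package PARMUL: Parseval for trigonometric polynomials, and multiplication by a bounded
trigonometric polynomial
-/

set_option autoImplicit false

open MeasureTheory Set Filter Topology

namespace Pool.Agent.U97.EW.PARMUL

open Pool.Agent.U469.EW

lemma int1 (m : ℤ) : ∫ y in Icc (0:ℝ) 1, Complex.exp (2 * Real.pi * Complex.I * ((m : ℂ) * (y : ℂ)))
    = if m = 0 then 1 else 0 := by
  by_cases hm : m = 0
  · simp [hm]
  · rw [if_neg hm, integral_Icc_eq_integral_Ioc, ← intervalIntegral.integral_of_le zero_le_one]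
    have hc : (2 * Real.pi * Complex.I * (m : ℂ)) ≠ 0 := by
      have h1 : (m : ℂ) ≠ 0 := by exact_mod_cast hm
      exact mul_ne_zero Complex.two_pi_I_ne_zero h1
    have h := integral_exp_mul_complex (a := 0) (b := 1) hc
    have e : ∀ y : ℝ, Complex.exp (2 * Real.pi * Complex.I * ((m : ℂ) * (y : ℂ)))
        = Complex.exp (2 * Real.pi * Complex.I * (m : ℂ) * (y : ℂ)) := by
      intro y
      rw [mul_assoc (2 * (Real.pi : ℂ) * Complex.I)]
    simp only [e]
    rw [h]
    have h2 : Complex.exp (2 * Real.pi * Complex.I * (m : ℂ) * ((1 : ℝ) : ℂ)) = 1 := by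
      rw [Complex.ofReal_one, mul_one, Complex.exp_eq_one_iff]
      exact ⟨m, by ring⟩
    rw [h2]
    simp

lemma ch_prod (k : Wv) (y : Fin 3 → ℝ) :
    ch k y = ∏ i, Complex.exp (2 * Real.pi * Complex.I * ((k i : ℂ) * (y i : ℂ))) := by
  unfold ch
  rw [Finset.mul_sum, Complex.exp_sum]

lemma ch_cont (k : Wv) : Continuous (ch k) := by
  unfold ch
  fun_prop

lemma ch_add (k l : Wv) (y : Fin 3 → ℝ) : ch (k + l) y = ch k y * ch l y := by
  unfold ch
  rw [← Complex.exp_add, ← mul_add, ← Finset.sum_add_distrib]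
  congr 2
  refine Finset.sum_congr rfl fun i _ => ?_
  simp only [Pi.add_apply, Int.cast_add]
  ring

lemma ch_conj (k : Wv) (y : Fin 3 → ℝ) : (starRingEnd ℂ) (ch k y) = ch (-k) y := by
  unfold ch
  rw [← Complex.exp_conj]
  congr 1
  simp only [map_mul, map_sum, Complex.conj_I, Complex.conj_ofReal, Pi.neg_apply, Int.cast_neg,
    map_intCast, map_ofNat]
  rw [show (∑ i, -(k i : ℂ) * (y i : ℂ)) = -∑ i, (k i : ℂ) * (y i : ℂ) by
    rw [← Finset.sum_neg_distrib]
    exact Finset.sum_congr rfl fun i _ => by ring]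
  ring

lemma int3 (k : Wv) : ∫ y in Icc (0 : Fin 3 → ℝ) 1, ch k y = if k = 0 then 1 else 0 := by
  have h0 : (Icc (0 : Fin 3 → ℝ) 1) = Set.pi univ (fun _ => Icc (0:ℝ) 1) := by
    rw [Set.pi_univ_Icc]; rfl
  have h1 : (volume : Measure (Fin 3 → ℝ)).restrict (Icc (0 : Fin 3 → ℝ) 1)
      = Measure.pi (fun _ : Fin 3 => (volume : Measure ℝ).restrict (Icc (0:ℝ) 1)) := by
    rw [h0, volume_pi, Measure.restrict_pi_pi]
  rw [h1]
  simp only [ch_prod]
  rw [integral_fintype_prod_eq_prod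
    (f := fun i (t : ℝ) => Complex.exp (2 * Real.pi * Complex.I * ((k i : ℂ) * (t : ℂ))))]
  simp only [int1]
  by_cases hk : k = 0
  · simp [hk]
  · rw [if_neg hk]
    obtain ⟨i, hi⟩ := Function.ne_iff.1 hk
    exact Finset.prod_eq_zero (Finset.mem_univ i) (if_neg hi)

/-- Parseval. -/
theorem t_PAR : S_PAR := by
  intro F b
  have key : ((∫ y in Icc (0 : Fin 3 → ℝ) 1, ‖∑ k ∈ F, b k * ch k y‖ ^ 2 : ℝ) : ℂ)
      = ((∑ k ∈ F, ‖b k‖ ^ 2 : ℝ) : ℂ) := by
    rw [← integral_complex_ofReal]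
    have e : ∀ y : Fin 3 → ℝ, ((‖∑ k ∈ F, b k * ch k y‖ ^ 2 : ℝ) : ℂ)
        = ∑ k ∈ F, ∑ l ∈ F, (b k * (starRingEnd ℂ) (b l)) * ch (k - l) y := by
      intro y
      rw [Complex.ofReal_pow, ← Complex.mul_conj', map_sum, Finset.sum_mul_sum]
      refine Finset.sum_congr rfl fun k _ => Finset.sum_congr rfl fun l _ => ?_
      rw [map_mul, ch_conj, sub_eq_add_neg, ch_add]
      ring
    simp only [e]
    have hint : ∀ k l : Wv, Integrable (fun y => (b k * (starRingEnd ℂ) (b l)) * ch (k - l) y)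
        (volume.restrict (Icc (0 : Fin 3 → ℝ) 1)) := by
      intro k l
      exact (Continuous.integrableOn_Icc (continuous_const.mul (ch_cont _)))
    rw [integral_finsetSum _ (fun k _ => integrable_finsetSum _ (fun l _ => hint k l))]
    rw [Complex.ofReal_sum]
    refine Finset.sum_congr rfl fun k hk => ?_
    rw [integral_finsetSum _ (fun l _ => hint k l)]
    simp only [integral_const_mul, int3]
    rw [Finset.sum_eq_single k]
    · rw [sub_self, if_pos rfl, mul_one, Complex.mul_conj', Complex.ofReal_pow]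
    · intro l _ hl
      rw [if_neg (fun h => hl (sub_eq_zero.1 h).symm), mul_zero]
    · intro h
      exact absurd hk h
  exact_mod_cast key

/-- Multiplication by a bounded trigonometric polynomial. -/
theorem t_MUL : S_MUL := by
  classical
  intro W K b p s hs hb hp
  set P : Finset Wv := (K ×ˢ W).image (fun z => z.1 - z.2) with hP
  set Q : Finset Wv := (W ×ˢ P).image (fun z => z.2 + z.1) ∪ K with hQ
  let q : Wv → ℂ := fun k => ∑ j ∈ W, if k - j ∈ P then b j * p (k - j) else 0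
  have hq : ∀ k ∈ K, q k = ∑ j ∈ W, b j * p (k - j) := by
    intro k hk
    refine Finset.sum_congr rfl fun j hj => ?_
    rw [if_pos]
    rw [hP, Finset.mem_image]
    exact ⟨(k, j), Finset.mem_product.2 ⟨hk, hj⟩, rfl⟩
  have hprod : ∀ y : Fin 3 → ℝ, ∑ k ∈ Q, q k * ch k y
      = (∑ j ∈ W, b j * ch j y) * ∑ l ∈ P, p l * ch l y := by
    intro y
    rw [Finset.sum_mul_sum]
    simp only [q, Finset.sum_mul]
    rw [Finset.sum_comm]
    refine Finset.sum_congr rfl fun j hj => ?_
    simp only [ite_mul, zero_mul]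
    rw [← Finset.sum_filter]
    refine Finset.sum_nbij' (fun k => k - j) (fun l => l + j) ?_ ?_ ?_ ?_ ?_
    · intro k hk
      exact (Finset.mem_filter.1 hk).2
    · intro l hl
      refine Finset.mem_filter.2 ⟨?_, ?_⟩
      · rw [hQ, Finset.mem_union, Finset.mem_image]
        exact Or.inl ⟨(j, l), Finset.mem_product.2 ⟨hj, hl⟩, rfl⟩
      · rw [add_sub_cancel_right]
        exact hl
    · intro k _
      exact sub_add_cancel k j
    · intro l _
      exact add_sub_cancel_right l j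
    · intro k _
      have : ch k y = ch j y * ch (k - j) y := by
        rw [← ch_add, add_sub_cancel]
      rw [this]
      ring
  have hcont : ∀ (F : Finset Wv) (c : Wv → ℂ), Continuous (fun y => ∑ k ∈ F, c k * ch k y) :=
    fun F c => continuous_finsetSum _ fun k _ => continuous_const.mul (ch_cont k)
  calc ∑ k ∈ K, ‖∑ j ∈ W, b j * p (k - j)‖ ^ 2 = ∑ k ∈ K, ‖q k‖ ^ 2 :=
        Finset.sum_congr rfl fun k hk => by rw [hq k hk]
    _ ≤ ∑ k ∈ Q, ‖q k‖ ^ 2 :=
        Finset.sum_le_sum_of_subset_of_nonneg Finset.subset_union_right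
          (fun _ _ _ => by positivity)
    _ = ∫ y in Icc (0 : Fin 3 → ℝ) 1, ‖∑ k ∈ Q, q k * ch k y‖ ^ 2 := (t_PAR Q q).symm
    _ ≤ ∫ y in Icc (0 : Fin 3 → ℝ) 1, s ^ 2 * ‖∑ l ∈ P, p l * ch l y‖ ^ 2 := by
        refine integral_mono ?_ ?_ ?_
        · exact Continuous.integrableOn_Icc ((hcont Q q).norm.pow 2)
        · exact Continuous.integrableOn_Icc (continuous_const.mul ((hcont P p).norm.pow 2))
        · intro y
          show ‖∑ k ∈ Q, q k * ch k y‖ ^ 2 ≤ s ^ 2 * ‖∑ l ∈ P, p l * ch l y‖ ^ 2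
          rw [hprod y, norm_mul, mul_pow]
          have := hb y
          gcongr
    _ = s ^ 2 * ∑ l ∈ P, ‖p l‖ ^ 2 := by rw [integral_const_mul, t_PAR P p]
    _ ≤ s ^ 2 * ∑' k, ‖p k‖ ^ 2 := by
        gcongr
        exact hp.sum_le_tsum P (fun _ _ => by positivity)

end Pool.Agent.U97.EW.PARMUL
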